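import Pool.Agent.H29.OC.Nlc
import Pool.Agent.H97.OC.Stmts

/-!
# OC: the row NLC
-/

set_option autoImplicit false

namespace Pool.OC

open Finset Real
open Pool.Agent.H49.Ent Pool.Agent.H32.Dense Pool.STK Pool.KAF

section

variable {Ω : Type} [Fintype Ω] {T : Type}

theorem dbl_mul (p : Ω → ℝ) (b : Ω → T) (ω v : Ω) :
    dbl p b (ω, v) = p ω * cond p b (b ω) v := by
  classical
  unfold dbl glue Pool.Agent.H49.Ent.cond
  by_cases h : b ω = b v
  · rw [if_pos h, if_pos h.symm]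
    ring
  · rw [if_neg h, if_neg (Ne.symm h), mul_zero]

theorem Pr_dbl (p : Ω → ℝ) (b : Ω → T) (S : Set (Ω × Ω)) :
    Pr (dbl p b) S = Ex p (fun ω => Pr (cond p b (b ω)) {v | (ω, v) ∈ S}) := by
  classical
  rw [Pr_eq]
  unfold Ex
  rw [Fintype.sum_prod_type]
  refine Finset.sum_congr rfl fun ω _ => ?_
  show _ = p ω * Pr (cond p b (b ω)) {v | (ω, v) ∈ S}
  rw [Pr_eq, Finset.mul_sum]
  refine Finset.sum_congr rfl fun v _ => ?_
  by_cases h : (ω, v) ∈ S
  · rw [if_pos h, if_pos (show v ∈ {v | (ω, v) ∈ S} from h), dbl_mul]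
  · rw [if_neg h, if_neg (show v ∉ {v | (ω, v) ∈ S} from h), mul_zero]

end

/-- Counting: many heavy rows behind every start. -/
theorem count_rows (J₀ : Set ℕ) {X n h : ℕ} (h1 : 1 ≤ h) (hn : 64 * h ≤ n) (nX : 64 * n ≤ X)
    {u : ℝ} (hu : 0 < u) (hJ : ∀ j : ℕ, (j + 2) * h ≤ X →
      u * h ≤ (Set.ncard {r | r ∈ J₀ ∧ j * h ≤ r ∧ r < (j + 1) * h} : ℝ)) (q : ℕ)
    (hq : q ≤ 6 * n) :
    u / 2 * X ≤ (Set.ncard {s | s ∈ Finset.Ico (8 * n) (X - 8 * n) ∧ s + q ∈ J₀} : ℝ) := by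
  classical
  set F : Finset ℕ := (Finset.Ico (8 * n) (X - 8 * n)).filter fun s => s + q ∈ J₀ with hF
  have hFc : Set.ncard {s | s ∈ Finset.Ico (8 * n) (X - 8 * n) ∧ s + q ∈ J₀} = F.card := by
    rw [← Set.ncard_coe_finset]
    congr 1
    ext s
    simp [hF]
  rw [hFc]
  set j₀ : ℕ := (8 * n + q) / h + 1 with hj₀
  set j₁ : ℕ := (X - 8 * n + q) / h with hj₁
  have hh : 0 < h := h1
  -- blocks
  have hblock : ∀ j, j₀ ≤ j → j ≤ j₁ →
      ((j : ℝ) - j₀) * (u * h) ≤ (((Finset.Ico (j₀ * h) (j * h)).filter fun r => r ∈ J₀).card : ℝ) := by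
    intro j hj hj'
    induction j, hj using Nat.le_induction with
    | base => simp
    | succ j hj ih =>
      have h3 := ih (by omega)
      have h4 : (j + 2) * h ≤ X := by
        have h5 : (j + 1) * h ≤ X - 8 * n + q := by
          have := Nat.div_mul_le_self (X - 8 * n + q) h
          calc (j + 1) * h ≤ j₁ * h := Nat.mul_le_mul_right _ hj'
            _ ≤ X - 8 * n + q := this
        have h6 : (j + 2) * h = (j + 1) * h + h := by ring
        omega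
      have h5 := hJ j h4
      have h6 : Set.ncard {r | r ∈ J₀ ∧ j * h ≤ r ∧ r < (j + 1) * h} =
          ((Finset.Ico (j * h) ((j + 1) * h)).filter fun r => r ∈ J₀).card := by
        rw [← Set.ncard_coe_finset]
        congr 1
        ext s
        simp only [Finset.coe_filter, Finset.mem_Ico, Set.mem_ofPred_eq]
        tauto
      rw [h6] at h5
      have h7 : (Finset.Ico (j₀ * h) ((j + 1) * h)).filter (fun r => r ∈ J₀) =
          (Finset.Ico (j₀ * h) (j * h)).filter (fun r => r ∈ J₀) ∪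
          (Finset.Ico (j * h) ((j + 1) * h)).filter (fun r => r ∈ J₀) := by
        rw [← Finset.filter_union, Finset.Ico_union_Ico_eq_Ico (Nat.mul_le_mul_right _ hj)
          (Nat.mul_le_mul_right _ (by omega))]
      have h8 : Disjoint ((Finset.Ico (j₀ * h) (j * h)).filter (fun r => r ∈ J₀))
          ((Finset.Ico (j * h) ((j + 1) * h)).filter (fun r => r ∈ J₀)) :=
        (Finset.Ico_disjoint_Ico_consecutive _ _ _).mono (Finset.filter_subset _ _)
          (Finset.filter_subset _ _)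
      rw [h7, Finset.card_union_of_disjoint h8]
      push_cast
      linarith
  -- injection
  have hinj : ((Finset.Ico (j₀ * h) (j₁ * h)).filter fun r => r ∈ J₀).card ≤ F.card := by
    refine Finset.card_le_card_of_injOn (fun r => r - q) ?_ ?_
    · intro r hr
      rw [Finset.mem_coe, Finset.mem_filter, Finset.mem_Ico] at hr
      have h3 : 8 * n + q < j₀ * h := by
        rw [hj₀]
        have := Nat.lt_div_mul_add hh (a := 8 * n + q)
        rw [add_mul, one_mul]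
        exact this
      have h4 : j₁ * h ≤ X - 8 * n + q := Nat.div_mul_le_self _ _
      rw [Finset.mem_coe, hF, Finset.mem_filter, Finset.mem_Ico]
      show (8 * n ≤ r - q ∧ r - q < X - 8 * n) ∧ r - q + q ∈ J₀
      have h5 : r - q + q = r := by omega
      rw [h5]
      exact ⟨⟨by omega, by omega⟩, hr.2⟩
    · intro r hr r' hr' hrr
      rw [Finset.mem_coe, Finset.mem_filter, Finset.mem_Ico] at hr hr'
      have h3 : 8 * n + q < j₀ * h := by
        rw [hj₀]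
        have := Nat.lt_div_mul_add hh (a := 8 * n + q)
        rw [add_mul, one_mul]
        exact this
      simp only at hrr
      omega
  have hj : j₀ ≤ j₁ := by
    rw [hj₀, hj₁]
    rw [Nat.succ_le_iff, Nat.div_lt_iff_lt_mul hh]
    have := Nat.lt_div_mul_add hh (a := X - 8 * n + q)
    have h3 : (8 * n + q) + h ≤ X - 8 * n + q := by omega
    omega
  have hb := hblock j₁ hj le_rfl
  have hc : ((((Finset.Ico (j₀ * h) (j₁ * h)).filter fun r => r ∈ J₀).card : ℕ) : ℝ) ≤ F.card := by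
    exact_mod_cast hinj
  refine le_trans ?_ (hb.trans hc)
  have e1 : (X : ℝ) - 16 * n - 2 * h ≤ ((j₁ : ℝ) - j₀) * h := by
    have h3 : X - 8 * n + q < j₁ * h + h := Nat.lt_div_mul_add hh
    have h4 : (8 * n + q) / h * h ≤ 8 * n + q := Nat.div_mul_le_self _ _
    have h5 : j₀ * h = (8 * n + q) / h * h + h := by rw [hj₀]; ring
    have h6 : X + q < j₁ * h + h + 8 * n := by omega
    have h7 : j₀ * h ≤ 8 * n + q + h := by omega
    have h6' : (X : ℝ) + q < j₁ * h + h + 8 * n := by exact_mod_cast h6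
    have h7' : (j₀ : ℝ) * h ≤ 8 * n + q + h := by exact_mod_cast h7
    nlinarith
  have e2 : (64 : ℝ) * h ≤ n := by exact_mod_cast hn
  have e3 : (64 : ℝ) * n ≤ X := by exact_mod_cast nX
  have e4 : (0 : ℝ) ≤ n := Nat.cast_nonneg _
  have e5 : (1 : ℝ) / 2 * X ≤ ((j₁ : ℝ) - j₀) * h := by linarith
  have e6 := mul_le_mul_of_nonneg_left e5 hu.le
  linarith

open Classical in
/-- In a cell of stage A a large pair either has a near copy or hits its row. -/
theorem nlc_pt (d : Dat) {A : ℕ} (hOK : d.OK A) (m : d.Lam → ℤ) {a k₁ s : ℕ} (hk₁ : a + 4 ≤ k₁)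
    {l v : d.Lam} {t₁ t₀ : d.Tau}
    (hB : (2 : ℝ) ^ ((a : ℤ) + 4 - m l) * |d.th t₀ - d.th t₁| < |d.S t₀ - d.S t₁|)
    (hG : d.GA m s v = d.GA m s l) :
    |d.ZR t₁ t₀ l - d.ZR t₁ t₀ v| ≤
      (2 : ℝ) ^ (2 - ((s : ℤ) + (Pool.OCN.lev |d.S t₀ - d.S t₁| : ℤ))) ∧
    (|d.yR l - d.yR v| < (2 : ℝ) ^ (-((s : ℤ) + a)) ∨
      (2 : ℝ) ^ (-((s : ℤ) + (Pool.OCN.lev |d.S t₀ - d.S t₁| : ℤ) + k₁)) ≤
        |d.ZR t₁ t₀ l - d.ZR t₁ t₀ v|) := by
  unfold Dat.GA at hG
  simp only [Prod.mk.injEq] at hG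
  obtain ⟨g1, g2, g3, g4⟩ := hG
  have hom : d.omR v = d.omR l := by
    unfold Dat.omR
    rw [g2]
  have hZ : d.ZR t₁ t₀ l - d.ZR t₁ t₀ v =
      (d.th t₀ - d.th t₁) * (d.beR l - d.beR v) - (d.S t₀ - d.S t₁) * (d.yR l - d.yR v) := by
    unfold Dat.ZR
    rw [hom]
    ring
  have hBig : Pool.OCN.Big a (m l) (d.th t₀ - d.th t₁) (d.S t₀ - d.S t₁) := by
    unfold Pool.OCN.Big
    refine lt_of_le_of_lt (mul_le_mul_of_nonneg_right ?_ (abs_nonneg _)) hB
    refine zpow_le_zpow_right₀ (by norm_num) ?_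
    omega
  have hσ : |d.S t₀ - d.S t₁| ≤ 2 := by
    have h1 := hOK.hS t₀
    have h2 := hOK.hS t₁
    have h3 := abs_sub (d.S t₀) (d.S t₁)
    linarith
  have hy : |d.yR l - d.yR v| ≤ 2 ^ (-(s : ℤ)) := by
    have h1 := Int.abs_sub_lt_one_of_floor_eq_floor g3
    rw [← mul_sub, abs_mul, abs_of_pos (by positivity : (0 : ℝ) < 2 ^ s), abs_sub_comm] at h1
    rw [zpow_neg, zpow_natCast, ← one_div, le_div_iff₀ (by positivity), mul_comm]
    exact h1.le
  have hb : |d.beR l - d.beR v| ≤ 2 ^ (-(s : ℤ) - m l) := by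
    rw [g1] at g4
    have h1 := Int.abs_sub_lt_one_of_floor_eq_floor g4
    rw [← mul_sub, abs_mul, abs_of_pos (by positivity : (0 : ℝ) < 2 ^ ((s : ℤ) + m l)),
      abs_sub_comm] at h1
    rw [show (-(s : ℤ) - m l) = -((s : ℤ) + m l) by ring, zpow_neg, ← one_div,
      le_div_iff₀ (by positivity), mul_comm]
    exact h1.le
  rw [hZ]
  constructor
  · have h1 := Pool.OCN.up hBig hσ hy hb
    push_cast at h1
    exact h1
  · by_cases hn : |d.yR l - d.yR v| < (2 : ℝ) ^ (-((s : ℤ) + a))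
    · exact Or.inl hn
    · right
      rw [not_lt] at hn
      have h1 := Pool.OCN.low hBig hσ hb (by
        rw [show (-(s : ℤ) - (a : ℤ)) = -((s : ℤ) + a) by ring]
        exact hn)
      refine le_trans ?_ h1
      refine zpow_le_zpow_right₀ (by norm_num) ?_
      push_cast
      omega

/-- The level of a large pair is not large. -/
theorem lev_le {n a : ℕ} {m : ℤ} (hm : m ≤ 2 * n) {σ τ : ℝ} (hσ : |σ| ≤ 2)
    (hτ : (2 : ℝ) ^ (-(4 * n : ℤ)) ≤ |τ|) (hB : (2 : ℝ) ^ ((a : ℤ) + 4 - m) * |τ| < |σ|) :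
    Pool.OCN.lev |σ| ≤ 6 * n := by
  have h0 : 0 < |σ| := lt_of_le_of_lt (by positivity) hB
  obtain ⟨-, h2⟩ := Pool.OCN.lev_spec h0 hσ
  have h3 : (2 : ℝ) ^ ((a : ℤ) + 4 - m) * (2 : ℝ) ^ (-(4 * n : ℤ)) < 2 ^ (1 - (Pool.OCN.lev |σ| : ℤ)) :=
    lt_of_le_of_lt (mul_le_mul_of_nonneg_left hτ (by positivity)) (lt_of_lt_of_le hB h2)
  rw [← zpow_add₀ (by norm_num)] at h3
  have h4 : ((a : ℤ) + 4 - m) + -(4 * n : ℤ) < 1 - (Pool.OCN.lev |σ| : ℤ) := by
    by_contra hcon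
    rw [not_lt] at hcon
    exact absurd (zpow_le_zpow_right₀ (by norm_num : (1 : ℝ) ≤ 2) hcon) (not_le.2 h3)
  omega

theorem nlc_thm : NLCStmt := by
  classical
  intro d A J m n h k k₁ a e u π₁ ε₄ hOK hS hu hk hk₁ hRow hJ hSPR i hi
  have hX : (0 : ℝ) < d.X := by
    have h1 := hS.h1
    have h2 := hS.hn
    have h3 := hS.nX
    have : 0 < d.X := by omega
    exact_mod_cast this
  have hP := hOK.law.nonneg
  set Q := d.Qp i with hQdef
  have hQ0 : ∀ w, 0 ≤ Q w := fun w => dbl_nonneg hP w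
  have hQm : Marg Q d.P (fun w => w.1) := dbl_fst hP
  -- the set of the row lemma
  set W : Set (ℤ × d.Tau × d.Tau) := {x | (2 : ℝ) ^ (-(4 * n : ℤ)) ≤ |d.th x.2.2 - d.th x.2.1| ∧
    (2 : ℝ) ^ ((a : ℤ) + 4 - x.1) * |d.th x.2.2 - d.th x.2.1| < |d.S x.2.2 - d.S x.2.1|} with hW
  have hRi := hRow i (by omega) (fun _ t₁ t₀ => (Pool.OCN.lev |d.S t₀ - d.S t₁| : ℤ)) W (by
    intro w v s _ _ hw _ hG
    refine (nlc_pt d hOK m hk₁ hw.2 hG).1.trans (zpow_le_zpow_right₀ (by norm_num) ?_)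
    have : (2 : ℤ) ≤ k := by exact_mod_cast hk
    simp only
    omega)
  -- bad samples with a good base
  set Gb : Set d.Om := {ω | ∃ j : ℕ, (j + 2) * h ≤ d.X ∧
    (Set.ncard {r | r ∈ J ω ∧ j * h ≤ r ∧ r < (j + 1) * h} : ℝ) < u * h} with hGb
  set Bd : Set (d.Om × d.Om) := {w | (2 : ℝ) ^ (-(4 * n : ℤ)) ≤ |d.ta w| ∧
    (2 : ℝ) ^ ((a : ℤ) + 4 - m (d.L w.1)) * |d.ta w| < |d.sg w|} with hBd
  have hBW : ∀ w, w ∈ Bd → (m (d.L w.1), d.T w.1, d.T w.2) ∈ W := fun w hw => hw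
  set Sb : Set (d.Om × d.Om) := {w | w ∈ Bd ∧ w.1 ∉ Gb} with hSb
  have h1 : Pr Q Bd ≤ Pr Q {w | w.1 ∈ Gb} + Pr Q Sb := by
    refine le_trans (Pr_mono hQ0 fun w _ hw => ?_) (Pr_union_le hQ0 _ _)
    by_cases hg : w.1 ∈ Gb
    · exact Or.inl hg
    · exact Or.inr ⟨hw, hg⟩
  have h2 : Pr Q {w | w.1 ∈ Gb} = Pr d.P Gb := by
    have := hQm.law (fun ω => ω ∈ Gb) True
    exact this
  -- the sum over the cells
  set As : ℕ → Set (d.Om × d.Om) := fun s => {w | (m (d.L w.1), d.T w.1, d.T w.2) ∈ W ∧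
        0 ≤ (s : ℤ) + (Pool.OCN.lev |d.S (d.T w.2) - d.S (d.T w.1)| : ℤ) ∧
        ((s : ℤ) + (Pool.OCN.lev |d.S (d.T w.2) - d.S (d.T w.1)| : ℤ)).toNat ∈ J w.1} with hAs
  have h3 : ∀ s, Ex Q (Set.indicator (As s) (fun _ => 1)) ≤
      Ex Q (Set.indicator (As s) (fun w => Pr (cond d.P (fun v => d.GA m s (d.L v))
        (d.GA m s (d.L w.1)))
        {v | (2 : ℝ) ^ (-((s : ℤ) + (Pool.OCN.lev |d.S (d.T w.2) - d.S (d.T w.1)| : ℤ) + k₁)) ≤
          |d.ZR (d.T w.1) (d.T w.2) (d.L w.1) - d.ZR (d.T w.1) (d.T w.2) (d.L v)|})) +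
      Pr (dbl d.P (fun v => d.GA m s (d.L v)))
        {w | |d.yR (d.L w.1) - d.yR (d.L w.2)| < (2 : ℝ) ^ (-((s : ℤ) + a))} := by
    intro s
    have e1 : Pr (dbl d.P (fun v => d.GA m s (d.L v)))
        {w | |d.yR (d.L w.1) - d.yR (d.L w.2)| < (2 : ℝ) ^ (-((s : ℤ) + a))} =
        Ex Q (fun w => Pr (cond d.P (fun v => d.GA m s (d.L v)) (d.GA m s (d.L w.1)))
          {v | |d.yR (d.L w.1) - d.yR (d.L v)| < (2 : ℝ) ^ (-((s : ℤ) + a))}) := by
      rw [Pr_dbl]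
      exact (hQm.ex (fun ω => Pr (cond d.P (fun v => d.GA m s (d.L v)) (d.GA m s (d.L ω)))
          {v | |d.yR (d.L ω) - d.yR (d.L v)| < (2 : ℝ) ^ (-((s : ℤ) + a))})).symm
    rw [e1, ← Ex_add]
    refine Ex_mono hQ0 fun w hw => ?_
    have hPw : 0 < d.P w.1 := by
      have hw' : 0 < dbl d.P (fun ω => (d.L ω, d.Ti i ω)) w := hw
      exact ((glue_pos_iff hP hP w).1 hw').1
    have hc0 : ∀ v, 0 ≤ cond d.P (fun v => d.GA m s (d.L v)) (d.GA m s (d.L w.1)) v :=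
      fun v => cond_nonneg hP _ _ v
    by_cases hwA : w ∈ As s
    · rw [Set.indicator_of_mem hwA, Set.indicator_of_mem hwA]
      have e2 : ∑ v, cond d.P (fun v => d.GA m s (d.L v)) (d.GA m s (d.L w.1)) v = 1 :=
        sum_cond d.P _ (law_pos hP (fun v => d.GA m s (d.L v)) hPw).ne'
      rw [Pr_eq, Pr_eq, ← e2, ← Finset.sum_add_distrib]
      refine Finset.sum_le_sum fun v _ => ?_
      rcases (hc0 v).eq_or_lt with h0 | h0
      · rw [← h0]
        simp
      obtain ⟨-, hg⟩ := (cond_pos_iff hP _ _ v).1 h0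
      rcases (nlc_pt d hOK m hk₁ hwA.1.2 hg).2 with hh | hh
      · rw [if_pos (show v ∈ {v | |d.yR (d.L w.1) - d.yR (d.L v)| < (2 : ℝ) ^ (-((s : ℤ) + a))}
          from hh)]
        split_ifs <;> linarith
      · rw [if_pos (show v ∈ {v | (2 : ℝ) ^ (-((s : ℤ) +
          (Pool.OCN.lev |d.S (d.T w.2) - d.S (d.T w.1)| : ℤ) + k₁)) ≤
          |d.ZR (d.T w.1) (d.T w.2) (d.L w.1) - d.ZR (d.T w.1) (d.T w.2) (d.L v)|} from hh)]
        split_ifs <;> linarith
    · rw [Set.indicator_of_notMem hwA, Set.indicator_of_notMem hwA]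
      rw [zero_add]
      exact law_nonneg hc0 _ _
  have h4 := Finset.sum_le_sum fun s (_ : s ∈ Finset.Ico (8 * n) (d.X - 8 * n)) => h3 s
  rw [Finset.sum_add_distrib] at h4
  have h5 : ∑ s ∈ Finset.Ico (8 * n) (d.X - 8 * n), Ex Q (Set.indicator (As s) (fun _ => 1)) ≤
      e * d.X + ε₄ * d.X := h4.trans (add_le_add hRi hSPR)
  -- the lower bound
  have h6 : u / 2 * d.X * Pr Q Sb ≤
      ∑ s ∈ Finset.Ico (8 * n) (d.X - 8 * n), Ex Q (Set.indicator (As s) (fun _ => 1)) := by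
    unfold Ex
    rw [Finset.sum_comm, Pr_eq, Finset.mul_sum]
    refine Finset.sum_le_sum fun w _ => ?_
    rw [← Finset.mul_sum]
    have hnn : 0 ≤ ∑ s ∈ Finset.Ico (8 * n) (d.X - 8 * n),
        (As s).indicator (fun _ => (1 : ℝ)) w :=
      Finset.sum_nonneg fun s _ => Set.indicator_nonneg (fun _ _ => zero_le_one) _
    by_cases hw : w ∈ Sb
    · rw [if_pos hw, mul_comm]
      refine mul_le_mul_of_nonneg_left ?_ (hQ0 w)
      have hlev : Pool.OCN.lev |d.S (d.T w.2) - d.S (d.T w.1)| ≤ 6 * n := by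
        refine lev_le (hS.m2 (d.L w.1)) ?_ hw.1.1 hw.1.2
        have h1 := hOK.hS (d.T w.2)
        have h2 := hOK.hS (d.T w.1)
        have h3 := abs_sub (d.S (d.T w.2)) (d.S (d.T w.1))
        linarith
      have h7 := count_rows (J w.1) hS.h1 hS.hn hS.nX hu (fun j hj => by
        by_contra hcon
        exact hw.2 ⟨j, hj, not_le.1 hcon⟩) _ hlev
      refine h7.trans (le_of_eq ?_)
      have h8 : Set.ncard {s | s ∈ Finset.Ico (8 * n) (d.X - 8 * n) ∧
          s + Pool.OCN.lev |d.S (d.T w.2) - d.S (d.T w.1)| ∈ J w.1} =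
          ((Finset.Ico (8 * n) (d.X - 8 * n)).filter fun s => w ∈ As s).card := by
        rw [← Set.ncard_coe_finset]
        congr 1
        ext s
        rw [Finset.coe_filter]
        have h9 : ((s : ℤ) + (Pool.OCN.lev |d.S (d.T w.2) - d.S (d.T w.1)| : ℤ)).toNat =
            s + Pool.OCN.lev |d.S (d.T w.2) - d.S (d.T w.1)| := by omega
        constructor
        · rintro ⟨g1, g2⟩
          refine ⟨g1, hBW w hw.1, by positivity, ?_⟩
          rw [h9]
          exact g2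
        · rintro ⟨g1, g2⟩
          refine ⟨g1, ?_⟩
          have := g2.2.2
          rw [h9] at this
          exact this
      rw [h8, Finset.card_filter]
      push_cast
      refine Finset.sum_congr rfl fun s _ => ?_
      by_cases hsA : w ∈ As s
      · rw [if_pos hsA, Set.indicator_of_mem hsA]
      · rw [if_neg hsA, Set.indicator_of_notMem hsA]
    · rw [if_neg hw, mul_zero]
      exact mul_nonneg (hQ0 w) hnn
  have h7 : u / 2 * Pr Q Sb ≤ e + ε₄ := by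
    have : (u / 2 * Pr Q Sb) * d.X ≤ (e + ε₄) * d.X := by linarith
    exact le_of_mul_le_mul_right this hX
  have h8 : 0 ≤ Pr Q Sb := Pr_nonneg hQ0 _
  have h9 : Pr Q Sb ≤ 4 / u * (e + ε₄) := by
    rw [div_mul_eq_mul_div, le_div_iff₀ hu]
    nlinarith
  have h10 : Pr d.P Gb ≤ π₁ := hJ
  calc Pr Q Bd ≤ Pr Q {w | w.1 ∈ Gb} + Pr Q Sb := h1
    _ ≤ π₁ + 4 / u * (e + ε₄) := by rw [h2]; linarith

end Pool.OC
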