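import Pool.Agent.H29.OC.NlcS

/-!
# OC: the row NMX
-/

set_option autoImplicit false

namespace Pool.OC

open Finset Real
open Pool.Agent.H49.Ent Pool.Agent.H32.Dense Pool.STK Pool.KAF

theorem Ti_zero (d : Dat) {A : ℕ} (hOK : d.OK A) (ω : d.Om) : d.Ti 0 ω = 0 := by
  unfold Dat.Ti
  rw [pow_zero, one_mul, Int.floor_eq_zero_iff]
  exact hOK.hth (d.T ω)

/-- Pairs at the scale zero. -/
theorem Qp_zero (d : Dat) {A : ℕ} (hOK : d.OK A) : d.Qp 0 = dbl d.P d.L := by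
  classical
  funext w
  unfold Dat.Qp dbl glue
  have h1 : law d.P (fun ω => (d.L ω, d.Ti 0 ω)) (d.L w.1, d.Ti 0 w.1) = law d.P d.L (d.L w.1) := by
    unfold law
    refine Finset.sum_congr rfl fun ω _ => ?_
    by_cases h : d.L ω = d.L w.1
    · have h' : (d.L ω, d.Ti 0 ω) = (d.L w.1, d.Ti 0 w.1) := by
        rw [h, Ti_zero d hOK ω, Ti_zero d hOK w.1]
      exact (if_pos h').trans (if_pos h).symm
    · have h' : ¬ (d.L ω, d.Ti 0 ω) = (d.L w.1, d.Ti 0 w.1) :=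
        fun h' => h (Prod.ext_iff.mp h').1
      exact (if_neg h').trans (if_neg h).symm
  by_cases h : d.L w.1 = d.L w.2
  · have h' : (d.L w.1, d.Ti 0 w.1) = (d.L w.2, d.Ti 0 w.2) := by
      rw [h, Ti_zero d hOK w.1, Ti_zero d hOK w.2]
    refine (if_pos h').trans (Eq.trans ?_ (if_pos h).symm)
    exact congrArg (fun t => d.P w.1 * d.P w.2 / t) h1
  · have h' : ¬ (d.L w.1, d.Ti 0 w.1) = (d.L w.2, d.Ti 0 w.2) :=
      fun h' => h (Prod.ext_iff.mp h').1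
    exact (if_neg h').trans (if_neg h).symm

theorem nmx_thm : NMXStmt := by
  intro d A n a m x₀ ε₁ ε₂ ε₃ hOK hn hx hH hN hT
  have hP := hOK.law.nonneg
  have hQ0 : ∀ w, 0 ≤ d.Qp 0 w := fun w => dbl_nonneg hP w
  have hQm : Marg (d.Qp 0) d.P (fun w => w.1) := dbl_fst hP
  have e1 : Pr d.P {ω | m (d.L ω) = 2 * n} = Pr (d.Qp 0) {w | m (d.L w.1) = 2 * n} :=
    (hQm.law (fun ω => ω ∈ {ω | m (d.L ω) = 2 * n}) True).symm
  have h1 := hN 0 (by omega)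
  unfold Dat.H6 at hH
  rw [← Qp_zero d hOK] at hH
  rw [e1]
  have h2 : Pr (d.Qp 0) {w | m (d.L w.1) = 2 * n} ≤
      Pr (d.Qp 0) ({w | |d.S (d.T w.1) - d.S (d.T w.2)| < (2 : ℝ) ^ (-(x₀ * d.X))} ∪
        {w | (2 : ℝ) ^ (-(4 * n : ℤ)) ≤ |d.ta w| ∧
          (2 : ℝ) ^ ((a : ℤ) + 4 - m (d.L w.1)) * |d.ta w| < |d.sg w|} ∪
        {w | |d.ta w| < (2 : ℝ) ^ (-(4 * n : ℤ))}) := by
    refine Pr_mono hQ0 fun w _ hw => ?_
    by_cases h3 : |d.ta w| < (2 : ℝ) ^ (-(4 * n : ℤ))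
    · exact Or.inr h3
    · by_cases h4 : (2 : ℝ) ^ ((a : ℤ) + 4 - m (d.L w.1)) * |d.ta w| < |d.sg w|
      · exact Or.inl (Or.inr ⟨not_lt.1 h3, h4⟩)
      · refine Or.inl (Or.inl ?_)
        rw [not_lt] at h4
        have hm : m (d.L w.1) = 2 * n := hw
        have hta : |d.ta w| ≤ 1 := by
          have k1 := hOK.hth (d.T w.1)
          have k2 := hOK.hth (d.T w.2)
          unfold Dat.ta
          rw [abs_le]
          constructor <;> linarith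
        have h5 : |d.sg w| ≤ (2 : ℝ) ^ ((a : ℤ) + 4 - 2 * n) := by
          rw [hm] at h4
          refine h4.trans ?_
          have : (2 : ℝ) ^ ((a : ℤ) + 4 - 2 * n) * |d.ta w| ≤ (2 : ℝ) ^ ((a : ℤ) + 4 - 2 * n) * 1 :=
            mul_le_mul_of_nonneg_left hta (by positivity)
          rwa [mul_one] at this
        have h6 : (2 : ℝ) ^ ((a : ℤ) + 4 - 2 * n) < (2 : ℝ) ^ (-(x₀ * d.X)) := by
          rw [← Real.rpow_intCast]
          refine Real.rpow_lt_rpow_of_exponent_lt (by norm_num) ?_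
          push_cast
          linarith
        show |d.S (d.T w.1) - d.S (d.T w.2)| < (2 : ℝ) ^ (-(x₀ * d.X))
        have h7 : |d.S (d.T w.1) - d.S (d.T w.2)| = |d.sg w| := by
          unfold Dat.sg
          rw [abs_sub_comm]
        rw [h7]
        exact lt_of_le_of_lt h5 h6
  have h3 := (Pr_union_le hQ0 ({w | |d.S (d.T w.1) - d.S (d.T w.2)| < (2 : ℝ) ^ (-(x₀ * d.X))} ∪
        {w | (2 : ℝ) ^ (-(4 * n : ℤ)) ≤ |d.ta w| ∧
          (2 : ℝ) ^ ((a : ℤ) + 4 - m (d.L w.1)) * |d.ta w| < |d.sg w|})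
        {w | |d.ta w| < (2 : ℝ) ^ (-(4 * n : ℤ))})
  have h4 := Pr_union_le hQ0 {w | |d.S (d.T w.1) - d.S (d.T w.2)| < (2 : ℝ) ^ (-(x₀ * d.X))}
        {w | (2 : ℝ) ^ (-(4 * n : ℤ)) ≤ |d.ta w| ∧
          (2 : ℝ) ^ ((a : ℤ) + 4 - m (d.L w.1)) * |d.ta w| < |d.sg w|}
  linarith

end Pool.OC
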