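import Pool.Agent.H55.OC.KerDefs

/-!
# OC, row SPRB, piece T: the telescope, all starts
-/

set_option autoImplicit false

namespace Pool.OC

open Finset Real
open Pool.Agent.H49.Ent Pool.Agent.H32.Dense Pool.STK Pool.KAF Pool.OCT

theorem sum_residues (f : ℕ → ℝ) (K N : ℕ) :
    ∑ t ∈ range (N * K), f t = ∑ ρ ∈ range K, ∑ j ∈ range N, f (ρ + j * K) := by
  induction N with
  | zero => simp
  | succ N ih =>
    rw [Nat.succ_mul, Finset.sum_range_add, ih, ← Finset.sum_add_distrib]
    refine Finset.sum_congr rfl fun ρ _ => ?_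
    rw [Finset.sum_range_succ, Nat.add_comm ρ (N * K)]

section

variable {Ω χ : Type} [Fintype Ω]

/-- One step of the free part. -/
theorem free_step {p : Ω → ℝ} (hp : IsLaw p) (x : Ω → χ) (y om be : Ω → ℝ) (K s : ℕ)
    (hK : 1 ≤ K) :
    CH p (cF x y om (s + K)) (cB x y om be s) ≤ K * Real.log 2 + Real.log 2 *
      (K * Pr (dbl p (cB x y om be s)) {w | 1 / 2 ^ (s + K) ≤ |om w.1 - om w.2|} + 3) := by
  have hl2 : 0 < Real.log 2 := Real.log_pos (by norm_num)
  have hK0 : (0 : ℝ) < K := by exact_mod_cast hK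
  have hps : (2 : ℝ) ^ (s + K) = 2 ^ K * 2 ^ s := by rw [pow_add, mul_comm]
  have e0 : CH p (cF x y om (s + K)) (cB x y om be s) ≤
      CH p (fl (2 ^ K * 2 ^ s) y) (cB x y om be s) +
      CH p (fl (2 ^ K * 2 ^ s) om) (cB x y om be s) := by
    refine le_trans ?_ (CH_subadd hp.nonneg (fl (2 ^ K * 2 ^ s) y) (fl (2 ^ K * 2 ^ s) om)
      (cB x y om be s))
    refine CH_mono_left hp.nonneg ?_
    intro ω ω' _ _ hw
    simp only [Prod.mk.injEq] at hw
    obtain ⟨⟨h3, h4⟩, h5⟩ := hw
    have h6 : x ω = x ω' := by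
      have := congrArg (fun z : (χ × ℤ × ℤ) × ℤ => z.1.1) h5
      exact this
    show (x ω, fl (2 ^ (s + K)) y ω, fl (2 ^ (s + K)) om ω) =
      (x ω', fl (2 ^ (s + K)) y ω', fl (2 ^ (s + K)) om ω')
    rw [hps, h3, h4, h6]
  have e1 : CH p (fl (2 ^ K * 2 ^ s) y) (cB x y om be s) ≤ K * Real.log 2 := by
    refine ch_fl_le hp K (2 ^ s) y _ ?_
    intro ω ω' _ _ hw
    have := congrArg (fun z : (χ × ℤ × ℤ) × ℤ => z.1.2.1) hw
    exact this
  set e := CH p (fl (2 ^ K * 2 ^ s) om) (cB x y om be s) with he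
  have h1 := spread hp (a := K) (k := K) hK le_rfl (σ := 2 ^ s) (by positivity) om
    (cB x y om be s) (fun ω ω' _ _ hw => by
      have := congrArg (fun z : (χ × ℤ × ℤ) × ℤ => z.1.2.2) hw
      exact this) (d := K - e / Real.log 2) (by
      rw [sub_sub_cancel, div_mul_cancel₀ _ hl2.ne'])
  rw [← hps] at h1
  have hd0 : ∀ w, 0 ≤ dbl p (cB x y om be s) w := dbl_nonneg hp.nonneg
  have hsum : 1 ≤ Pr (dbl p (cB x y om be s)) {w | 1 / 2 ^ (s + K) ≤ |om w.1 - om w.2|} +
      Pr (dbl p (cB x y om be s)) {w | |om w.1 - om w.2| < 1 / 2 ^ (s + K)} := by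
    classical
    rw [Pool.KAF.Pr_eq, Pool.KAF.Pr_eq, ← Finset.sum_add_distrib]
    have h7 : ∑ w, dbl p (cB x y om be s) w = 1 := Pool.KAL.FRM.dbl_sum hp (cB x y om be s)
    refine h7.symm.le.trans (Finset.sum_le_sum fun w _ => ?_)
    by_cases h8 : |om w.1 - om w.2| < 1 / 2 ^ (s + K)
    · rw [if_neg (show w ∉ {w : Ω × Ω | 1 / 2 ^ (s + K) ≤ |om w.1 - om w.2|} from
          fun h' => absurd h8 (not_lt.2 h')),
        if_pos (show w ∈ {w : Ω × Ω | |om w.1 - om w.2| < 1 / 2 ^ (s + K)} from h8), zero_add]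
    · rw [if_pos (show w ∈ {w : Ω × Ω | 1 / 2 ^ (s + K) ≤ |om w.1 - om w.2|} from not_lt.1 h8),
        if_neg (show w ∉ {w : Ω × Ω | |om w.1 - om w.2| < 1 / 2 ^ (s + K)} from h8), add_zero]
  set Q := Pr (dbl p (cB x y om be s)) {w | 1 / 2 ^ (s + K) ≤ |om w.1 - om w.2|} with hQ
  rw [le_div_iff₀ hK0] at h1
  have h2 : e ≤ Real.log 2 * (K * Q + 3) := by
    have h3 : (1 - Q) * K ≤ K - e / Real.log 2 + 3 := by
      refine le_trans ?_ h1
      exact mul_le_mul_of_nonneg_right (by linarith) hK0.le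
    have h4 : e / Real.log 2 ≤ K * Q + 3 := by linarith
    rw [div_le_iff₀ hl2] at h4
    linarith
  linarith

end

/-- Piece T. -/
theorem sprb_t : SPRB_T := by
  intro Ω χ _ p x y om be K N s₀ chi c b r Kc L M hp hK hr hKc hchi hb hL hM
  have hl2 : 0 < Real.log 2 := Real.log_pos (by norm_num)
  have hK0 : (0 : ℝ) < K := by exact_mod_cast hK
  set κ : ℝ := 2 ^ (K + 1) * (r + Kc / 2 ^ K) + 2 with hκ
  set Q : ℕ → ℝ := fun t => Pr (dbl p (cB x y om be (s₀ + t)))
    {w | 1 / 2 ^ (s₀ + t + K) ≤ |om w.1 - om w.2|} with hQ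
  -- one residue class
  have key : ∀ ρ ∈ range K, (L - M) / Real.log 2 - N * (K + 4 + Real.log κ / Real.log 2) -
      K * ∑ j ∈ range N, b (s₀ + (ρ + j * K)) ≤ K * ∑ j ∈ range N, Q (ρ + j * K) := by
    intro ρ hρ
    rw [Finset.mem_range] at hρ
    have hidx : ∀ j, s₀ + ρ + (j + 1) * K = (s₀ + ρ + j * K) + K := fun j => by ring
    have hB : ∀ j < N, CH p (fl (2 ^ (s₀ + ρ + (j + 1) * K)) be)
        (fun ω => (cF x y om (s₀ + ρ + (j + 1) * K) ω,
          (cF x y om (s₀ + ρ + j * K) ω, fl (2 ^ (s₀ + ρ + j * K)) be ω))) ≤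
        Real.log 2 + Real.log κ + b (s₀ + (ρ + j * K)) * (K * Real.log 2) := by
      intro j hj
      have hlt : s₀ + ρ + j * K < s₀ + N * K := by
        have h1 : (j + 1) * K ≤ N * K := Nat.mul_le_mul_right K hj
        have h2 : (j + 1) * K = j * K + K := by ring
        omega
      have hbb := hb (s₀ + ρ + j * K) (by omega) hlt
      rw [hidx j]
      set s := s₀ + ρ + j * K with hs
      have hps : (2 : ℝ) ^ (s + K) = 2 ^ K * 2 ^ s := by rw [pow_add, mul_comm]
      have h := atom hp K (τ := 2 ^ s) (by positivity) be (cB x y om be s) (cF x y om (s + K))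
        (fun ω ω' _ _ hw => (Prod.ext_iff.1 hw).2)
        (h := fun g ω => chi s g * y ω + c s g) (ρ := r / 2 ^ s)
        (v := Kc * (1 / 2 ^ (s + K))) (κ := κ) (by positivity) (by positivity)
        (by
          rw [hκ, hps]
          apply le_of_eq
          field_simp
          ring)
        (by
          intro ω ω' _ _ hG hA
          have h3 : fl (2 ^ (s + K)) y ω = fl (2 ^ (s + K)) y ω' := by
            have := congrArg (fun z : χ × ℤ × ℤ => z.2.1) hA
            exact this
          have h4 := fl_cell (by positivity : (0 : ℝ) < 2 ^ (s + K)) y h3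
          have h5 : chi s (cB x y om be s ω) * y ω + c s (cB x y om be s ω) -
              (chi s (cB x y om be s ω) * y ω' + c s (cB x y om be s ω)) =
              chi s (cB x y om be s ω) * (y ω - y ω') := by ring
          rw [h5, abs_mul]
          exact mul_le_mul (hchi s _) h4 (abs_nonneg _) hKc)
      have hl : 0 ≤ (K : ℝ) * Real.log 2 := by positivity
      have h3 := mul_le_mul_of_nonneg_right hbb hl
      have h4 : CH p (fl (2 ^ (s + K)) be)
          (fun ω => (cF x y om (s + K) ω, (cF x y om s ω, fl (2 ^ s) be ω))) =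
          CH p (fl (2 ^ K * 2 ^ s) be)
          (fun ω => (cF x y om (s + K) ω, cB x y om be s ω)) := by
        rw [hps]
        rfl
      rw [h4]
      have h5 : s₀ + (ρ + j * K) = s := by omega
      rw [h5]
      linarith
    have ht := tel hp.nonneg (fun j => cF x y om (s₀ + ρ + j * K))
      (fun j => fl (2 ^ (s₀ + ρ + j * K)) be) N
      (fun j => Real.log 2 + Real.log κ + b (s₀ + (ρ + j * K)) * (K * Real.log 2)) hB
    have hs : ∑ j ∈ range N, CH p (cF x y om (s₀ + ρ + (j + 1) * K))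
        (fun ω => (cF x y om (s₀ + ρ + j * K) ω, fl (2 ^ (s₀ + ρ + j * K)) be ω)) ≤
        ∑ j ∈ range N, (K * Real.log 2 + Real.log 2 * (K * Q (ρ + j * K) + 3)) := by
      refine Finset.sum_le_sum fun j _ => ?_
      have h1 := free_step hp x y om be K (s₀ + ρ + j * K) hK
      rw [hidx j]
      have h2 : s₀ + ρ + j * K = s₀ + (ρ + j * K) := by ring
      simp only [hQ]
      rw [← h2]
      exact h1
    have h1 := hL ρ hρ
    have h2 := hM ρ hρ
    have ht' : CH p (cF x y om (s₀ + ρ + N * K)) (cF x y om (s₀ + ρ)) ≤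
        CH p (fl (2 ^ (s₀ + ρ)) be) (cF x y om (s₀ + ρ)) +
        ∑ j ∈ range N, (Real.log 2 + Real.log κ + b (s₀ + (ρ + j * K)) * (K * Real.log 2)) +
        ∑ j ∈ range N, CH p (cF x y om (s₀ + ρ + (j + 1) * K))
          (fun ω => (cF x y om (s₀ + ρ + j * K) ω, fl (2 ^ (s₀ + ρ + j * K)) be ω)) := by
      have h3 := ht
      simp only [Nat.zero_mul, Nat.add_zero] at h3
      exact h3
    have e1 : ∑ j ∈ range N, (Real.log 2 + Real.log κ + b (s₀ + (ρ + j * K)) * (K * Real.log 2)) =
        N * (Real.log 2 + Real.log κ) +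
          (∑ j ∈ range N, b (s₀ + (ρ + j * K))) * (K * Real.log 2) := by
      rw [Finset.sum_add_distrib, Finset.sum_const, card_range, nsmul_eq_mul, Finset.sum_mul]
    have e2 : ∑ j ∈ range N, (K * Real.log 2 + Real.log 2 * (K * Q (ρ + j * K) + 3)) =
        N * (K * Real.log 2 + 3 * Real.log 2) +
          (∑ j ∈ range N, Q (ρ + j * K)) * (K * Real.log 2) := by
      have h3 : ∀ j ∈ range N, (K * Real.log 2 + Real.log 2 * (K * Q (ρ + j * K) + 3)) =
          (K * Real.log 2 + 3 * Real.log 2) + Q (ρ + j * K) * (K * Real.log 2) :=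
        fun j _ => by ring
      rw [Finset.sum_congr rfl h3, Finset.sum_add_distrib, Finset.sum_const, card_range,
        nsmul_eq_mul, ← Finset.sum_mul]
    rw [e1] at ht'
    rw [e2] at hs
    set B := ∑ j ∈ range N, b (s₀ + (ρ + j * K)) with hBdef
    set R := ∑ j ∈ range N, Q (ρ + j * K) with hRdef
    have h3 : L - M ≤ (N * (K + 4 + Real.log κ / Real.log 2) + K * B + K * R) * Real.log 2 := by
      have h4 : (N * (K + 4 + Real.log κ / Real.log 2) + K * B + K * R) * Real.log 2 =
          N * (Real.log 2 + Real.log κ) + B * (K * Real.log 2) +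
            (N * (K * Real.log 2 + 3 * Real.log 2) + R * (K * Real.log 2)) := by
        have h5 : Real.log κ / Real.log 2 * Real.log 2 = Real.log κ :=
          div_mul_cancel₀ _ hl2.ne'
        calc (N * (K + 4 + Real.log κ / Real.log 2) + K * B + K * R) * Real.log 2 =
            N * ((K + 4) * Real.log 2 + Real.log κ / Real.log 2 * Real.log 2) +
              K * B * Real.log 2 + K * R * Real.log 2 := by ring
          _ = _ := by rw [h5]; ring
      rw [h4]
      linarith
    rw [← div_le_iff₀ hl2] at h3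
    linarith
  -- the sum over the residue classes
  have hsum := Finset.sum_le_sum key
  rw [Finset.sum_sub_distrib, Finset.sum_const, card_range, nsmul_eq_mul, ← Finset.mul_sum,
    ← Finset.mul_sum] at hsum
  rw [← sum_residues (fun t => b (s₀ + t)) K N] at hsum
  rw [← sum_residues Q K N] at hsum
  have h1 : K * ((L - M) / Real.log 2 - N * (K + 4 + Real.log κ / Real.log 2) -
      ∑ t ∈ range (N * K), b (s₀ + t)) ≤ K * ∑ t ∈ range (N * K), Q t := by
    have h2 : (K : ℝ) * ((L - M) / Real.log 2 - N * (K + 4 + Real.log κ / Real.log 2) -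
      ∑ t ∈ range (N * K), b (s₀ + t)) =
      K * ((L - M) / Real.log 2 - N * (K + 4 + Real.log κ / Real.log 2)) -
        K * ∑ t ∈ range (N * K), b (s₀ + t) := by ring
    rw [h2]
    exact hsum
  exact le_of_mul_le_mul_left h1 hK0

end Pool.OC
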