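import Pool.Agent.H70.K2.AVG

/-!
# OC: good cells

If the rows which are not full are not hit and every sample sees many of them, then in most cells
the form is almost determined: there are numbers `χ`, `c` of the cell with `be = χ y + c` up to a
small error, for most samples of the cell.
-/

set_option autoImplicit false

namespace Pool.OCN

open Finset Real
open Pool.Agent.H49.Ent Pool.Agent.H32.Dense Pool.STK Pool.KAF

section

variable {Ω X : Type} [Fintype Ω] [Fintype X] {T : Type}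

/-- The samples which have a good partner. `A ω x` is the probability of the bad event for the
partner `x`, `q ω x` the mass and `w ω x` the weight of the partner. -/
theorem ex_good {P : Ω → ℝ} (hP : ∀ ω, 0 ≤ P ω) (q w A : Ω → X → ℝ) (hq : ∀ ω x, 0 ≤ q ω x)
    (hw : ∀ ω x, 0 ≤ w ω x) (hA : ∀ ω x, 0 ≤ A ω x) {a u e : ℝ} (ha : 0 < a) (hu : 0 < u)
    (Gd : Set Ω) (hGd : ∀ ω ∈ Gd, 0 < P ω → u * P ω ≤ ∑ x, q ω x * w ω x)
    (hR : ∑ ω, ∑ x, q ω x * (w ω x * A ω x) ≤ e) :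
    Pr P {ω | ¬ (ω ∈ Gd ∧ ∃ x, 0 < q ω x * w ω x ∧ A ω x ≤ a)} ≤ e / (u * a) + Pr P Gdᶜ := by
  classical
  set B : Set Ω := {ω | ω ∈ Gd ∧ ∀ x, 0 < q ω x * w ω x → a < A ω x} with hB
  have h1 : Pr P {ω | ¬ (ω ∈ Gd ∧ ∃ x, 0 < q ω x * w ω x ∧ A ω x ≤ a)} ≤ Pr P B + Pr P Gdᶜ := by
    rw [Pr_eq, Pr_eq, Pr_eq, ← Finset.sum_add_distrib]
    refine Finset.sum_le_sum fun ω _ => ?_
    have h0 := hP ω
    by_cases h2 : ω ∈ {ω | ¬ (ω ∈ Gd ∧ ∃ x, 0 < q ω x * w ω x ∧ A ω x ≤ a)}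
    · rw [if_pos h2]
      by_cases h3 : ω ∈ Gd
      · have h4 : ω ∈ B := by
          refine ⟨h3, fun x hx => ?_⟩
          by_contra hcon
          exact h2 ⟨h3, x, hx, not_lt.1 hcon⟩
        rw [if_pos h4]
        split_ifs <;> linarith
      · rw [if_pos (show ω ∈ Gdᶜ from h3)]
        split_ifs <;> linarith
    · rw [if_neg h2]
      split_ifs <;> linarith
  have h2 : (u * a) * Pr P B ≤ e := by
    refine le_trans ?_ hR
    rw [Pr_eq, Finset.mul_sum]
    refine Finset.sum_le_sum fun ω _ => ?_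
    have hnn : 0 ≤ ∑ x, q ω x * (w ω x * A ω x) :=
      Finset.sum_nonneg fun x _ => mul_nonneg (hq _ _) (mul_nonneg (hw _ _) (hA _ _))
    by_cases h3 : ω ∈ B
    · rw [if_pos h3]
      rcases (hP ω).eq_or_lt with h0 | h0
      · rw [← h0, mul_zero]
        exact hnn
      have h4 := hGd ω h3.1 h0
      have h5 : a * ∑ x, q ω x * w ω x ≤ ∑ x, q ω x * (w ω x * A ω x) := by
        rw [Finset.mul_sum]
        refine Finset.sum_le_sum fun x _ => ?_
        rcases (mul_nonneg (hq ω x) (hw ω x)).eq_or_lt with h6 | h6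
        · have h7 : q ω x * (w ω x * A ω x) = (q ω x * w ω x) * A ω x := by ring
          rw [h7, ← h6, mul_zero, zero_mul]
        · have h7 := h3.2 x h6
          nlinarith
      have h8 : a * (u * P ω) ≤ a * ∑ x, q ω x * w ω x := mul_le_mul_of_nonneg_left h4 ha.le
      linarith
    · rw [if_neg h3, mul_zero]
      exact hnn
  have h3 : Pr P B ≤ e / (u * a) := by
    rw [le_div_iff₀ (by positivity)]
    linarith
  linarith

/-- A choice for every cell: `Q g d` is a property of the cell `g` and of the data `d` such that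
the bad event of the data has probability at most `a` in the cell. -/
theorem select {P : Ω → ℝ} (hP : ∀ ω, 0 ≤ P ω) (G : Ω → T) {Δ : Type} (Bad : T → Δ → Set Ω)
    (Q : T → Δ → Prop) (d₀ : Δ) {a : ℝ} (ha : 0 ≤ a)
    (hQ : ∀ g d, Q g d → Pr (cond P G g) (Bad g d) ≤ a) :
    ∃ f : T → Δ, (∀ g, Q g (f g) ∨ f g = d₀) ∧
      Pr P {ω | ω ∈ Bad (G ω) (f (G ω))} ≤
        a * ∑ ω, P ω + Pr P {ω | ¬ ∃ d, Q (G ω) d} := by
  classical
  refine ⟨fun g => if h : ∃ d, Q g d then h.choose else d₀, fun g => ?_, ?_⟩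
  · by_cases h : ∃ d, Q g d
    · left
      simp only [dif_pos h]
      exact h.choose_spec
    · right
      simp only [dif_neg h]
  · set f : T → Δ := fun g => if h : ∃ d, Q g d then h.choose else d₀ with hf
    rw [← Pool.KX.AVG.Pr_cond_sum hP G {ω | ω ∈ Bad (G ω) (f (G ω))}, Pr_eq, Finset.mul_sum,
      ← Finset.sum_add_distrib]
    refine Finset.sum_le_sum fun ω _ => ?_
    rcases (hP ω).eq_or_lt with h0 | h0
    · rw [← h0]
      simp
    have h1 : Pr (cond P G (G ω)) {ω' | ω' ∈ Bad (G ω') (f (G ω'))} ≤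
        Pr (cond P G (G ω)) (Bad (G ω) (f (G ω))) := by
      rw [Pr_eq, Pr_eq]
      refine Finset.sum_le_sum fun ω' _ => ?_
      rcases (cond_nonneg hP G (G ω) ω').eq_or_lt with h2 | h2
      · rw [← h2]
        simp
      · obtain ⟨h3, h4⟩ := (cond_pos_iff hP G (G ω) ω').1 h2
        by_cases h5 : ω' ∈ Bad (G ω') (f (G ω'))
        · have h6 : ω' ∈ Bad (G ω) (f (G ω)) := by rwa [h4] at h5
          rw [if_pos (show ω' ∈ {ω' | ω' ∈ Bad (G ω') (f (G ω'))} from h5), if_pos h6]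
        · rw [if_neg (show ω' ∉ {ω' | ω' ∈ Bad (G ω') (f (G ω'))} from h5)]
          split_ifs <;> linarith
    by_cases h : ∃ d, Q (G ω) d
    · rw [if_neg (show ω ∉ {ω | ¬ ∃ d, Q (G ω) d} from fun h' => h' h), add_zero]
      have h2 : Q (G ω) (f (G ω)) := by
        simp only [hf]
        rw [dif_pos h]
        exact h.choose_spec
      have h3 := h1.trans (hQ _ _ h2)
      nlinarith
    · rw [if_pos (show ω ∈ {ω | ¬ ∃ d, Q (G ω) d} from h)]
      have h2 : Pr (cond P G (G ω)) (Bad (G ω) (f (G ω))) ≤ 1 := by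
        rw [Pr_eq]
        have h3 : ∑ ω', cond P G (G ω) ω' = 1 := sum_cond P G (law_pos hP G h0).ne'
        rw [← h3]
        refine Finset.sum_le_sum fun ω' _ => ?_
        have := cond_nonneg hP G (G ω) ω'
        split_ifs <;> linarith
      have h3 := h1.trans h2
      have h4 : 0 ≤ a * P ω := by positivity
      nlinarith

/-- **Good cells.** The numbers `χ`, `c` of the cell. -/
theorem gds {P : Ω → ℝ} (hP : IsLaw P) (G : Ω → T) (y be : Ω → ℝ) (q w : Ω → X → ℝ)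
    (hq : ∀ ω x, 0 ≤ q ω x) (hw : ∀ ω x, 0 ≤ w ω x) (χ : T → X → ℝ) {K r a u e : ℝ}
    (hK : 0 ≤ K) (hχ : ∀ ω x, 0 < P ω → 0 < q ω x * w ω x → |χ (G ω) x| ≤ K) (ha : 0 < a)
    (hu : 0 < u) (Gd : Set Ω) (hGd : ∀ ω ∈ Gd, 0 < P ω → u * P ω ≤ ∑ x, q ω x * w ω x)
    (hR : ∑ ω, ∑ x, q ω x * (w ω x * Pr (cond P G (G ω))
      {ω' | r < |(be ω - be ω') - χ (G ω) x * (y ω - y ω')|}) ≤ e) :
    ∃ cχ cc : T → ℝ, (∀ g, |cχ g| ≤ K) ∧
      Pr P {ω | r < |be ω - (cχ (G ω) * y ω + cc (G ω))|} ≤ a + e / (u * a) + Pr P Gdᶜ := by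
  classical
  obtain ⟨f, hf1, hf2⟩ := select (Δ := ℝ × ℝ) hP.nonneg G
    (fun _ d => {ω | r < |be ω - (d.1 * y ω + d.2)|})
    (fun g d => |d.1| ≤ K ∧ Pr (cond P G g) {ω | r < |be ω - (d.1 * y ω + d.2)|} ≤ a) (0, 0)
    ha.le (fun g d hd => hd.2)
  refine ⟨fun g => (f g).1, fun g => (f g).2, fun g => ?_, ?_⟩
  · rcases hf1 g with h | h
    · exact h.1
    · simp only [h, abs_zero, hK]
  · refine le_trans hf2 ?_
    rw [hP.sum_one, mul_one, add_assoc]
    refine add_le_add_right ?_ a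
    refine le_trans ?_ (ex_good hP.nonneg q w (fun ω x => Pr (cond P G (G ω))
      {ω' | r < |(be ω - be ω') - χ (G ω) x * (y ω - y ω')|}) hq hw (fun ω x => ?_) ha hu Gd hGd hR)
    · rw [Pr_eq, Pr_eq]
      refine Finset.sum_le_sum fun ω _ => ?_
      rcases (hP.nonneg ω).eq_or_lt with h0 | h0
      · rw [← h0]
        simp
      by_cases h1 : ω ∈ Gd ∧ ∃ x, 0 < q ω x * w ω x ∧ Pr (cond P G (G ω))
          {ω' | r < |(be ω - be ω') - χ (G ω) x * (y ω - y ω')|} ≤ a
      · obtain ⟨hg, x, hx, hxa⟩ := h1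
        rw [if_neg]
        · split_ifs <;> linarith
        · intro hcon
          apply hcon
          refine ⟨(χ (G ω) x, be ω - χ (G ω) x * y ω), hχ ω x h0 hx, ?_⟩
          refine le_trans (le_of_eq ?_) hxa
          congr 1
          ext ω'
          show (r < |be ω' - (χ (G ω) x * y ω' + (be ω - χ (G ω) x * y ω))|) ↔
            (r < |(be ω - be ω') - χ (G ω) x * (y ω - y ω')|)
          rw [show be ω' - (χ (G ω) x * y ω' + (be ω - χ (G ω) x * y ω)) =
            -((be ω - be ω') - χ (G ω) x * (y ω - y ω')) by ring, abs_neg]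
      · rw [if_pos (show ω ∈ {ω | ¬ (ω ∈ Gd ∧ ∃ x, 0 < q ω x * w ω x ∧ Pr (cond P G (G ω))
          {ω' | r < |(be ω - be ω') - χ (G ω) x * (y ω - y ω')|} ≤ a)} from h1)]
        split_ifs <;> linarith
    · exact Finset.sum_nonneg fun ω' _ => by
        have := cond_nonneg hP.nonneg G (G ω) ω'
        positivity

end

end Pool.OCN
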