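import Pool.Agent.H70.K2.AVG

/-!
# OC: no large slopes

A form `Z = τ be - σ y` at a sample, with `σ` much larger than `τ` in the units of the cells. In the
cell number `s` the form varies as `σ y`, which is spread; so it hits the row `s + j`, where
`|σ|` is about `2 ^ (-j)`. As the rows which are not full are not hit, and every sample sees many
of them, such samples are rare.
-/

set_option autoImplicit false

namespace Pool.OCN

open Finset Real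
open Pool.Agent.H49.Ent Pool.Agent.H32.Dense Pool.STK Pool.KAF

/-- The level of a positive number. -/
noncomputable def lev (x : ℝ) : ℕ := (1 - Int.clog 2 x).toNat

theorem lev_spec {x : ℝ} (h0 : 0 < x) (h2 : x ≤ 2) :
    (2 : ℝ) ^ (-(lev x : ℤ)) < x ∧ x ≤ (2 : ℝ) ^ (1 - (lev x : ℤ)) := by
  have h1 : Int.clog 2 x ≤ 1 := by
    rw [← Int.le_zpow_iff_clog_le (by norm_num) h0]
    simpa using h2
  have h3 : ((lev x : ℕ) : ℤ) = 1 - Int.clog 2 x := by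
    unfold lev
    rw [Int.toNat_of_nonneg (by linarith)]
  rw [h3]
  constructor
  · have h4 := Int.zpow_pred_clog_lt_self (b := 2) (r := x) (by norm_num) h0
    have h5 : (-(1 - Int.clog 2 x) : ℤ) = Int.clog 2 x - 1 := by ring
    rw [h5]
    exact_mod_cast h4
  · have h4 := Int.self_le_zpow_clog (b := 2) (by norm_num) x
    have h5 : (1 - (1 - Int.clog 2 x) : ℤ) = Int.clog 2 x := by ring
    rw [h5]
    exact_mod_cast h4

/-- The sample has a large slope: `|σ| > 2 ^ (κ + 2 - m) |τ|`. -/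
def Big (κ : ℕ) (m : ℤ) (τ σ : ℝ) : Prop := (2 : ℝ) ^ ((κ : ℤ) + 2 - m) * |τ| < |σ|

theorem Big.pos {κ : ℕ} {m : ℤ} {τ σ : ℝ} (h : Big κ m τ σ) : 0 < |σ| :=
  lt_of_le_of_lt (by positivity) h

/-- A large difference of the values at a nominal scale. -/
theorem Big.of_scale {κ i : ℕ} {m : ℤ} {τ σ : ℝ} (hτ : |τ| ≤ 2 ^ (-(i : ℤ)))
    (h : (2 : ℝ) ^ ((κ : ℤ) + 2 - m - i) < |σ|) : Big κ m τ σ := by
  refine lt_of_le_of_lt ?_ h
  refine (mul_le_mul_of_nonneg_left hτ (by positivity)).trans (le_of_eq ?_)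
  rw [← zpow_add₀ (by norm_num)]
  congr 1

/-- The term with `τ` is small. -/
theorem Big.tb {κ s : ℕ} {m : ℤ} {τ σ db : ℝ} (hB : Big κ m τ σ)
    (hb : |db| ≤ 2 ^ (-(s : ℤ) - m)) : |τ * db| ≤ 2 ^ (-(s : ℤ) - κ - 2) * |σ| := by
  unfold Big at hB
  rw [abs_mul]
  have h1 : |τ| * |db| ≤ |τ| * 2 ^ (-(s : ℤ) - m) := mul_le_mul_of_nonneg_left hb (abs_nonneg _)
  have h2 : |τ| * 2 ^ (-(s : ℤ) - m) = 2 ^ (-(s : ℤ) - κ - 2) * (2 ^ ((κ : ℤ) + 2 - m) * |τ|) := by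
    rw [← mul_assoc, ← zpow_add₀ (by norm_num), mul_comm]
    congr 2
    ring
  rw [h2] at h1
  exact h1.trans (mul_le_mul_of_nonneg_left hB.le (by positivity))

theorem two_zpow_shift (a : ℤ) (n : ℕ) : (2 : ℝ) ^ a = 2 ^ n * 2 ^ (a - n) := by
  rw [← zpow_natCast (2 : ℝ) n, ← zpow_add₀ (by norm_num)]
  congr 1
  ring

/-- The form varies by at most `2 ^ (2 - r)` in the cell, `r = s + lev |σ|`. -/
theorem up {κ s : ℕ} {m : ℤ} {σ τ dy db : ℝ} (hB : Big κ m τ σ) (hσ : |σ| ≤ 2)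
    (hy : |dy| ≤ 2 ^ (-(s : ℤ))) (hb : |db| ≤ 2 ^ (-(s : ℤ) - m)) :
    |τ * db - σ * dy| ≤ 2 ^ (2 - ((s + lev |σ| : ℕ) : ℤ)) := by
  obtain ⟨-, h1⟩ := lev_spec hB.pos hσ
  have e1 : |τ * db| ≤ 2 ^ (1 - ((s + lev |σ| : ℕ) : ℤ)) := by
    refine (hB.tb hb).trans ((mul_le_mul_of_nonneg_left h1 (by positivity)).trans ?_)
    rw [← zpow_add₀ (by norm_num)]
    refine zpow_le_zpow_right₀ (by norm_num) ?_
    push_cast
    omega
  have e2 : |σ * dy| ≤ 2 ^ (1 - ((s + lev |σ| : ℕ) : ℤ)) := by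
    rw [abs_mul]
    refine (mul_le_mul h1 hy (abs_nonneg _) (by positivity)).trans ?_
    rw [← zpow_add₀ (by norm_num)]
    refine zpow_le_zpow_right₀ (by norm_num) ?_
    push_cast
    omega
  have e3 := abs_sub (τ * db) (σ * dy)
  have e4 := two_zpow_shift (2 - ((s + lev |σ| : ℕ) : ℤ)) 1
  rw [show (2 - ((s + lev |σ| : ℕ) : ℤ)) - ((1 : ℕ) : ℤ) = 1 - ((s + lev |σ| : ℕ) : ℤ) by
    push_cast; ring] at e4
  rw [e4]
  linarith

/-- If `y` is spread in the cell, the form hits the row `r = s + lev |σ|`. -/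
theorem low {κ s : ℕ} {m : ℤ} {σ τ dy db : ℝ} (hB : Big κ m τ σ) (hσ : |σ| ≤ 2)
    (hb : |db| ≤ 2 ^ (-(s : ℤ) - m)) (hy : (2 : ℝ) ^ (-(s : ℤ) - κ) ≤ |dy|) :
    (2 : ℝ) ^ (-((s + lev |σ| : ℕ) : ℤ) - κ - 1) ≤ |τ * db - σ * dy| := by
  obtain ⟨h4, h1⟩ := lev_spec hB.pos hσ
  have e1 := hB.tb hb
  have e2 : (2 : ℝ) ^ (-(s : ℤ) - κ) * |σ| ≤ |σ * dy| := by
    rw [abs_mul, mul_comm]
    exact mul_le_mul_of_nonneg_left hy hB.pos.le
  have e5 := abs_sub_abs_le_abs_sub (σ * dy) (τ * db)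
  rw [abs_sub_comm] at e5
  have e6 := two_zpow_shift (-(s : ℤ) - κ) 2
  rw [show (-(s : ℤ) - κ) - ((2 : ℕ) : ℤ) = -(s : ℤ) - κ - 2 by push_cast; ring] at e6
  have e7 : (2 : ℝ) ^ (-((s + lev |σ| : ℕ) : ℤ) - κ - 1) ≤ 2 * 2 ^ (-(s : ℤ) - κ - 2) * |σ| := by
    have e8 : (2 : ℝ) ^ (-((s + lev |σ| : ℕ) : ℤ) - κ - 1) =
        2 * 2 ^ (-(s : ℤ) - κ - 2) * 2 ^ (-(lev |σ| : ℤ)) := by
      rw [show (2 : ℝ) * 2 ^ (-(s : ℤ) - κ - 2) = 2 ^ (-(s : ℤ) - κ - 1) by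
        rw [two_zpow_shift (-(s : ℤ) - κ - 1) 1, pow_one]
        congr 2
        push_cast
        ring, ← zpow_add₀ (by norm_num)]
      congr 1
      push_cast
      ring
    rw [e8]
    exact mul_le_mul_of_nonneg_left h4.le (by positivity)
  have e9 : 0 ≤ (2 : ℝ) ^ (-(s : ℤ) - κ - 2) * |σ| := by positivity
  rw [e6] at e2
  linarith

variable {Ω Λ : Type} [Fintype Ω] [Fintype Λ]

/-- The row is hit, with both bounds. -/
theorem row_mem {κ k₁ k s : ℕ} (hk₁ : κ + 1 ≤ k₁) (hk : 2 ≤ k) {m : ℤ} {σ τ dy db : ℝ}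
    (hB : Big κ m τ σ) (hσ : |σ| ≤ 2)
    (hy : |dy| ≤ 2 ^ (-(s : ℤ))) (hb : |db| ≤ 2 ^ (-(s : ℤ) - m))
    (hs : (2 : ℝ) ^ (-(s : ℤ) - κ) ≤ |dy|) :
    (2 : ℝ) ^ (-((s + lev |σ| : ℕ) : ℤ) - k₁) ≤ |τ * db - σ * dy| ∧
      |τ * db - σ * dy| ≤ 2 ^ ((k : ℤ) - ((s + lev |σ| : ℕ) : ℤ)) := by
  constructor
  · refine le_trans (zpow_le_zpow_right₀ (by norm_num) ?_) (low hB hσ hb hs)
    omega
  · refine (up hB hσ hy hb).trans (zpow_le_zpow_right₀ (by norm_num) ?_)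
    omega

open Classical in
/-- **No large slopes.** `D s` couples a sample with a copy in the same cell number `s`; `W r` is
the weight of the row `r` (positive at rows which are not full), `M s` bounds the probability
that the copy is too near. -/
theorem nlc {P : Ω → ℝ} (hP : ∀ ω, 0 ≤ P ω) {N : ℕ} (hN : 0 < N) (D : ℕ → Ω × Λ → ℝ)
    (hD : ∀ s w, 0 ≤ D s w) (hD1 : ∀ s < N, ∀ ω, ∑ ω', D s (ω, ω') = P ω)
    (y be τ σ : Ω → ℝ) (y' be' : Λ → ℝ) (m : Ω → ℤ) {κ k₁ k : ℕ} (hk₁ : κ + 1 ≤ k₁)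
    (hk : 2 ≤ k) (W : ℕ → Ω → ℝ) (hW0 : ∀ r ω, 0 ≤ W r ω) (hW1 : ∀ r ω, W r ω ≤ 1)
    (hσ : ∀ ω, 0 < P ω → |σ ω| ≤ 2)
    (hy : ∀ s < N, ∀ w, 0 < D s w → |y w.1 - y' w.2| ≤ 2 ^ (-(s : ℤ)))
    (hb : ∀ s < N, ∀ w, 0 < D s w → |be w.1 - be' w.2| ≤ 2 ^ (-(s : ℤ) - m w.1))
    {e u : ℝ} (hu : 0 < u)
    (hRL : ∑ s ∈ range N, ∑ w, D s w * (if Big κ (m w.1) (τ w.1) (σ w.1) ∧
      (2 : ℝ) ^ (-((s + lev |σ w.1| : ℕ) : ℤ) - k₁) ≤
        |τ w.1 * (be w.1 - be' w.2) - σ w.1 * (y w.1 - y' w.2)| ∧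
      |τ w.1 * (be w.1 - be' w.2) - σ w.1 * (y w.1 - y' w.2)| ≤
        2 ^ ((k : ℤ) - ((s + lev |σ w.1| : ℕ) : ℤ))
      then W (s + lev |σ w.1|) w.1 else 0) ≤ e * N)
    (M : ℕ → Ω → ℝ)
    (hSP : ∀ s < N, ∀ ω, 0 < P ω → ∑ l, D s (ω, l) *
      (if |y ω - y' l| < (2 : ℝ) ^ (-(s : ℤ) - κ) then 1 else 0) ≤ P ω * M s ω)
    (G : Set Ω) (hG : ∀ ω ∈ G, 2 * (u * N) ≤ ∑ s ∈ range N, W (s + lev |σ ω|) ω)
    (hG' : ∀ ω ∈ G, ∑ s ∈ range N, M s ω ≤ u * N) :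
    Pr P {ω | ω ∈ G ∧ Big κ (m ω) (τ ω) (σ ω)} ≤ e / u := by
  have hN' : (0 : ℝ) < N := by exact_mod_cast hN
  set S : Set Ω := {ω | ω ∈ G ∧ Big κ (m ω) (τ ω) (σ ω)} with hS
  -- the event of the row lemma
  set R : ℕ → Ω × Λ → Prop := fun s w => Big κ (m w.1) (τ w.1) (σ w.1) ∧
      (2 : ℝ) ^ (-((s + lev |σ w.1| : ℕ) : ℤ) - k₁) ≤
        |τ w.1 * (be w.1 - be' w.2) - σ w.1 * (y w.1 - y' w.2)| ∧
      |τ w.1 * (be w.1 - be' w.2) - σ w.1 * (y w.1 - y' w.2)| ≤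
        2 ^ ((k : ℤ) - ((s + lev |σ w.1| : ℕ) : ℤ)) with hR
  have key : ∀ s ∈ range N, ∀ ω ∈ S, P ω * (W (s + lev |σ ω|) ω - M s ω) ≤
      ∑ l, D s (ω, l) * (if R s (ω, l) then W (s + lev |σ ω|) ω else 0) := by
    intro s hs ω hω
    rw [mem_range] at hs
    rcases (hP ω).eq_or_lt with h0 | h0
    · rw [← h0, zero_mul]
      refine Finset.sum_nonneg fun l _ => mul_nonneg (hD _ _) ?_
      split_ifs
      · exact hW0 _ _
      · exact le_rfl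
    have h1 := hSP s hs ω h0
    have h2 : P ω * W (s + lev |σ ω|) ω ≤
        (∑ l, D s (ω, l) * (if R s (ω, l) then W (s + lev |σ ω|) ω else 0)) +
        ∑ l, D s (ω, l) * (if |y ω - y' l| < (2 : ℝ) ^ (-(s : ℤ) - κ) then 1 else 0) := by
      rw [← hD1 s hs ω, Finset.sum_mul, ← Finset.sum_add_distrib]
      refine Finset.sum_le_sum fun l _ => ?_
      rw [← mul_add]
      rcases (hD s (ω, l)).eq_or_lt with h3 | h3
      · rw [← h3, zero_mul, zero_mul]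
      refine mul_le_mul_of_nonneg_left ?_ (hD s _)
      by_cases hsp : |y ω - y' l| < (2 : ℝ) ^ (-(s : ℤ) - κ)
      · rw [if_pos hsp]
        have h4 := hW1 (s + lev |σ ω|) ω
        have h5 := hW0 (s + lev |σ ω|) ω
        split_ifs <;> linarith
      · rw [if_neg hsp, add_zero, if_pos]
        exact ⟨hω.2, row_mem hk₁ hk hω.2 (hσ _ h0) (hy s hs _ h3) (hb s hs _ h3)
          (not_lt.1 hsp)⟩
    rw [mul_sub]
    linarith
  have h2 : Pr P S * (u * N) ≤ ∑ s ∈ range N, ∑ w, D s w *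
      (if R s w then W (s + lev |σ w.1|) w.1 else 0) := by
    have e1 : ∀ s ∈ range N, ∑ w, D s w * (if R s w then W (s + lev |σ w.1|) w.1 else 0) =
        ∑ ω, ∑ l, D s (ω, l) * (if R s (ω, l) then W (s + lev |σ ω|) ω else 0) := by
      intro s _
      rw [Fintype.sum_prod_type]
    rw [Finset.sum_congr rfl e1, Finset.sum_comm, Pr_eq, Finset.sum_mul]
    refine Finset.sum_le_sum fun ω _ => ?_
    by_cases hω : ω ∈ S
    · rw [if_pos hω]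
      refine le_trans ?_ (Finset.sum_le_sum fun s hs => key s hs ω hω)
      rw [← Finset.mul_sum, Finset.sum_sub_distrib]
      refine mul_le_mul_of_nonneg_left ?_ (hP ω)
      have h3 := hG ω hω.1
      have h4 := hG' ω hω.1
      linarith
    · rw [if_neg hω, zero_mul]
      refine Finset.sum_nonneg fun s _ => Finset.sum_nonneg fun l _ => mul_nonneg (hD _ _) ?_
      split_ifs
      · exact hW0 _ _
      · exact le_rfl
  have h3 : Pr P S * (u * N) ≤ e * N := h2.trans hRL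
  rw [le_div_iff₀ hu]
  have h4 : (Pr P S * u) * N ≤ e * N := by linarith
  exact le_of_mul_le_mul_right h4 hN'

end Pool.OCN
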